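import Pool.Agent.Helper96.WS.TwoPoint

/-!
# The two point inequality for complex numbers
-/

set_option autoImplicit false

namespace Pool.Agent.Helper96.WS

open Complex

/-- Combined real inequality: `a` real, `b = x + i y`. -/
theorem combined (a x y c s : ℝ) (r : ℕ) (hr : 1 ≤ r) (p : ℝ) (hp : p = 2 * r / (2 * r - 1))
    (hcs : (4 * r - 3) * s ^ 2 ≤ c ^ 2) :
    2 ^ (2 * r - 1) * (((c * a - s * y) ^ 2 + (s * x) ^ 2) ^ r +
      ((c * a + s * y) ^ 2 + (s * x) ^ 2) ^ r) ≤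
      2 * (c ^ 2) ^ r *
      (Real.sqrt ((a + x) ^ 2 + y ^ 2) ^ p + Real.sqrt ((a - x) ^ 2 + y ^ 2) ^ p) ^
        (2 * r - 1) := by
  have hr1 : (1 : ℝ) ≤ r := by exact_mod_cast hr
  have hc : (0 : ℝ) < 4 * r - 3 := by linarith
  have h1 := upper (c * a) (s * y) (s * x) r
  have h2 := lower a x y r hr p hp
  have h3 : (c * a) ^ 2 + (4 * r - 3) * (s * y) ^ 2 + (s * x) ^ 2 ≤
      c ^ 2 * (a ^ 2 + x ^ 2 / (4 * r - 3) + y ^ 2) := by
    have e1 : s ^ 2 * x ^ 2 ≤ c ^ 2 * (x ^ 2 / (4 * r - 3)) := by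
      rw [mul_div_assoc', le_div_iff₀ hc]
      nlinarith [sq_nonneg x]
    have e2 : (4 * r - 3) * (s * y) ^ 2 ≤ c ^ 2 * y ^ 2 := by
      nlinarith [sq_nonneg y]
    nlinarith
  have h4 : ((c * a) ^ 2 + (4 * r - 3) * (s * y) ^ 2 + (s * x) ^ 2) ^ r ≤
      (c ^ 2) ^ r * (a ^ 2 + x ^ 2 / (4 * r - 3) + y ^ 2) ^ r := by
    rw [← mul_pow]
    exact pow_le_pow_left₀ (by positivity) h3 r
  calc 2 ^ (2 * r - 1) * (((c * a - s * y) ^ 2 + (s * x) ^ 2) ^ r +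
      ((c * a + s * y) ^ 2 + (s * x) ^ 2) ^ r)
      ≤ 2 ^ (2 * r - 1) * (2 * ((c ^ 2) ^ r * (a ^ 2 + x ^ 2 / (4 * r - 3) + y ^ 2) ^ r)) := by
        apply mul_le_mul_of_nonneg_left _ (by positivity)
        linarith
    _ = 2 * (c ^ 2) ^ r *
        (2 ^ (2 * r - 1) * (a ^ 2 + x ^ 2 / (4 * r - 3) + y ^ 2) ^ r) := by ring
    _ ≤ _ := by gcongr

/-- The same for complex `a` and `b`. -/
theorem combined_complex (a b : ℂ) (c s : ℝ) (r : ℕ) (hr : 1 ≤ r) (p : ℝ)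
    (hp : p = 2 * r / (2 * r - 1))
    (hcs : (4 * r - 3) * s ^ 2 ≤ c ^ 2) :
    2 ^ (2 * r - 1) * (‖(c : ℂ) * a + s * I * b‖ ^ (2 * r) + ‖(c : ℂ) * a - s * I * b‖ ^ (2 * r)) ≤
      2 * (c ^ 2) ^ r * (‖a + b‖ ^ p + ‖a - b‖ ^ p) ^ (2 * r - 1) := by
  obtain ⟨w, hw, ha⟩ : ∃ w : ℂ, ‖w‖ = 1 ∧ a = w * ((‖a‖ : ℝ) : ℂ) := by
    refine ⟨exp (arg a * I), ?_, ?_⟩
    · rw [Complex.norm_exp_ofReal_mul_I]
    · rw [mul_comm, Complex.norm_mul_exp_arg_mul_I]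
  have hw0 : w ≠ 0 := by
    intro h; rw [h, norm_zero] at hw; exact zero_ne_one hw
  set a' : ℝ := ‖a‖ with ha'
  set b' : ℂ := b / w with hb'
  have hb : b = w * b' := by rw [hb']; field_simp
  have n1 : ∀ z : ℂ, ‖w * z‖ = ‖z‖ := by intro z; rw [norm_mul, hw, one_mul]
  have nsq : ∀ z : ℂ, ‖z‖ ^ (2 * r) = (z.re ^ 2 + z.im ^ 2) ^ r := by
    intro z
    rw [pow_mul, Complex.sq_norm, Complex.normSq_apply]
    ring_nf
  have nrt : ∀ z : ℂ, ‖z‖ = Real.sqrt (z.re ^ 2 + z.im ^ 2) := by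
    intro z
    rw [Complex.norm_def, Complex.normSq_apply]
    ring_nf
  have e1 : ‖(c : ℂ) * a + s * I * b‖ ^ (2 * r) =
      ((c * a' - s * b'.im) ^ 2 + (s * b'.re) ^ 2) ^ r := by
    rw [ha, hb, show (c : ℂ) * (w * (a' : ℂ)) + s * I * (w * b') = w * (c * a' + s * I * b') by ring,
      n1, nsq]
    congr 1
    simp
    ring
  have e2 : ‖(c : ℂ) * a - s * I * b‖ ^ (2 * r) =
      ((c * a' + s * b'.im) ^ 2 + (s * b'.re) ^ 2) ^ r := by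
    rw [ha, hb, show (c : ℂ) * (w * (a' : ℂ)) - s * I * (w * b') = w * (c * a' - s * I * b') by ring,
      n1, nsq]
    congr 1
    simp
  have e3 : ‖a + b‖ = Real.sqrt ((a' + b'.re) ^ 2 + b'.im ^ 2) := by
    rw [ha, hb, ← mul_add, n1, nrt]
    simp
  have e4 : ‖a - b‖ = Real.sqrt ((a' - b'.re) ^ 2 + b'.im ^ 2) := by
    rw [ha, hb, ← mul_sub, n1, nrt]
    simp
  rw [e1, e2, e3, e4]
  exact combined a' b'.re b'.im c s r hr p hp hcs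

/-- The two point inequality for the matrix `[[1, 1], [1, ω]]`, `ω = e^{4 i φ}`. -/
theorem two_point (φ : ℝ) (u v : ℂ) (r : ℕ) (hr : 1 ≤ r) (p : ℝ)
    (hp : p = 2 * r / (2 * r - 1))
    (hcs : (4 * r - 3) * Real.sin φ ^ 2 ≤ Real.cos φ ^ 2) :
    ‖u + v‖ ^ (2 * r) + ‖u + exp ((4 * φ : ℝ) * I) * v‖ ^ (2 * r) ≤
      4 * (Real.cos φ ^ 2) ^ r * (‖u‖ ^ p + ‖v‖ ^ p) ^ (2 * r - 1) := by
  set z : ℂ := exp ((φ : ℝ) * I) with hz
  have hzn : ‖z‖ = 1 := Complex.norm_exp_ofReal_mul_I φ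
  have hz0 : z ≠ 0 := exp_ne_zero _
  have hz4 : exp ((4 * φ : ℝ) * I) = z ^ 4 := by
    rw [hz, ← Complex.exp_nat_mul]
    congr 1
    push_cast
    ring
  have hzre : z = (Real.cos φ : ℂ) + (Real.sin φ : ℂ) * I := by
    rw [hz, Complex.exp_mul_I, Complex.ofReal_cos, Complex.ofReal_sin]
  have hzinv : z⁻¹ = (Real.cos φ : ℂ) - (Real.sin φ : ℂ) * I := by
    have : z⁻¹ = exp (-((φ : ℝ) * I)) := by rw [hz, Complex.exp_neg]
    rw [this, show -((φ : ℝ) * I : ℂ) = ((-φ : ℝ) : ℂ) * I by push_cast; ring, Complex.exp_mul_I,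
      ← Complex.ofReal_cos, ← Complex.ofReal_sin, Real.cos_neg, Real.sin_neg]
    push_cast
    ring
  set a : ℂ := (u + z ^ 2 * v) / 2 with ha
  set b : ℂ := (u - z ^ 2 * v) / 2 with hb
  have hu : u = a + b := by rw [ha, hb]; ring
  have hv : z ^ 2 * v = a - b := by rw [ha, hb]; ring
  have hvn : ‖v‖ = ‖a - b‖ := by
    rw [← hv, norm_mul, norm_pow, hzn]; simp
  have e1 : u + v = z⁻¹ * (2 * ((Real.cos φ : ℂ) * a + (Real.sin φ : ℂ) * I * b)) := by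
    have : v = (z⁻¹) ^ 2 * (a - b) := by rw [← hv]; field_simp
    have h2 : z⁻¹ * (z * (a + b) + z⁻¹ * (a - b)) = u + v := by
      rw [this, hu]; field_simp
    rw [← h2, hzinv, hzre]
    ring
  have e2 : u + z ^ 4 * v = z * (2 * ((Real.cos φ : ℂ) * a - (Real.sin φ : ℂ) * I * b)) := by
    have h2 : z * (z⁻¹ * (a + b) + z * (a - b)) = u + z ^ 4 * v := by
      rw [← hv, hu]; field_simp
    rw [← h2, hzinv, hzre]
    ring
  have n1 : ‖u + v‖ = 2 * ‖(Real.cos φ : ℂ) * a + (Real.sin φ : ℂ) * I * b‖ := by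
    rw [e1, norm_mul, norm_inv, hzn, norm_mul]; simp
  have n2 : ‖u + exp ((4 * φ : ℝ) * I) * v‖ =
      2 * ‖(Real.cos φ : ℂ) * a - (Real.sin φ : ℂ) * I * b‖ := by
    rw [hz4, e2, norm_mul, hzn, norm_mul]; simp
  have key := combined_complex a b (Real.cos φ) (Real.sin φ) r hr p hp hcs
  rw [n1, n2, hu, hvn, mul_pow, mul_pow]
  have h22 : (2 : ℝ) ^ (2 * r) = 2 * 2 ^ (2 * r - 1) := by
    rw [← pow_succ']
    congr 1
    omega
  rw [h22]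
  nlinarith

end Pool.Agent.Helper96.WS
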