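import Pool.Agent.Helper96.WS.Tensor

/-!
# Popular intersection sizes divisible by `M`
-/

set_option autoImplicit false

namespace Pool.Agent.Helper96.WS

open Finset

/-- Choice of the exponent: for `0 < t ≤ 1/2` there is `r ≥ 1` with `(4 r - 2) t ≤ 1` and
`1 ≤ 6 t r`. -/
theorem exists_r (t : ℝ) (ht : 0 < t) (ht2 : t ≤ 1 / 2) :
    ∃ r : ℕ, 1 ≤ r ∧ (4 * (r : ℝ) - 2) * t ≤ 1 ∧ 1 ≤ 6 * t * r := by
  refine ⟨⌊(1 / t + 2) / 4⌋₊, ?_, ?_, ?_⟩
  · apply Nat.le_floor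
    have : 2 ≤ 1 / t := by rw [le_div_iff₀ ht]; linarith
    push_cast
    linarith
  · have h1 : ((⌊(1 / t + 2) / 4⌋₊ : ℕ) : ℝ) ≤ (1 / t + 2) / 4 :=
      Nat.floor_le (by positivity)
    have h2 : 4 * ((⌊(1 / t + 2) / 4⌋₊ : ℕ) : ℝ) - 2 ≤ 1 / t := by linarith
    calc _ ≤ 1 / t * t := by gcongr
      _ = 1 := by field_simp
  · have h1 : (1 / t + 2) / 4 < ((⌊(1 / t + 2) / 4⌋₊ : ℕ) : ℝ) + 1 := Nat.lt_floor_add_one _
    have h0 : (1 : ℝ) ≤ ((⌊(1 / t + 2) / 4⌋₊ : ℕ) : ℝ) := by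
      have : 1 ≤ ⌊(1 / t + 2) / 4⌋₊ := by
        apply Nat.le_floor
        have : 2 ≤ 1 / t := by rw [le_div_iff₀ ht]; linarith
        push_cast
        linarith
      exact_mod_cast this
    set r := ((⌊(1 / t + 2) / 4⌋₊ : ℕ) : ℝ)
    rcases le_total (1 / 6) t with h | h
    · nlinarith
    · have h3 : (1 / t - 2) / 4 < r := by linarith
      have h4 : t * ((1 / t - 2) / 4) < t * r := by gcongr
      have h5 : t * ((1 / t - 2) / 4) = (1 - 2 * t) / 4 := by field_simp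
      nlinarith

variable {α : Type*} [DecidableEq α]

/-- Bound for the exponential sums. -/
theorem expsum_bound (S : Finset α) (X : Finset (Finset α)) (hX : X ⊆ S.powerset)
    (φ : ℝ) (hφ : |φ| ≤ Real.pi / 4) (hφ0 : φ ≠ 0)
    (hXc : 2 ^ S.card * Real.exp (-(S.card : ℝ) / 100) ≤ (X.card : ℝ)) :
    ‖∑ B ∈ X, ∑ A ∈ X, (Complex.exp ((4 * φ : ℝ) * Complex.I)) ^ (A ∩ B).card‖ ≤
      Real.exp (-(2 / 5) * Real.sin φ ^ 2 * S.card) * (X.card : ℝ) ^ 2 := by
  set t : ℝ := Real.sin φ ^ 2 with ht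
  set n : ℝ := (S.card : ℝ) with hn
  have hn0 : 0 ≤ n := Nat.cast_nonneg _
  have hpi := Real.pi_pos
  have hsin : Real.sin φ ≠ 0 := by
    intro h
    rcases lt_or_gt_of_ne hφ0 with h1 | h1
    · have := Real.sin_neg_of_neg_of_neg_pi_lt h1 (by
        have := neg_abs_le φ; linarith)
      linarith
    · have := Real.sin_pos_of_pos_of_lt_pi h1 (by have := le_abs_self φ; linarith)
      linarith
  have ht0 : 0 < t := by rw [ht]; positivity
  have hcos2 : Real.cos φ ^ 2 = 1 - t := by rw [ht]; linarith [Real.sin_sq_add_cos_sq φ]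
  have ht2 : t ≤ 1 / 2 := by
    have h1 : Real.cos (2 * φ) = 2 * Real.cos φ ^ 2 - 1 := Real.cos_two_mul φ
    have h2 : 0 ≤ Real.cos (2 * φ) := by
      apply Real.cos_nonneg_of_mem_Icc
      constructor
      · have := neg_abs_le φ; linarith
      · have := le_abs_self φ; linarith
    rw [h1, hcos2] at h2
    linarith
  obtain ⟨r, hr1, hr2, hr3⟩ := exists_r t ht0 ht2
  have hrr : (1 : ℝ) ≤ r := by exact_mod_cast hr1
  have hcs : (4 * r - 3) * Real.sin φ ^ 2 ≤ Real.cos φ ^ 2 := by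
    rw [← ht, hcos2]; linarith
  have hTP := fun u v : ℂ => two_point φ u v r hr1 (2 * r / (2 * r - 1)) rfl hcs
  have h1 := bilinear_bound (Complex.exp ((4 * φ : ℝ) * Complex.I)) (4 * (Real.cos φ ^ 2) ^ r)
    (by positivity) r hr1 _ rfl hTP S X hX
  set Z := ‖∑ B ∈ X, ∑ A ∈ X, (Complex.exp ((4 * φ : ℝ) * Complex.I)) ^ (A ∩ B).card‖ with hZ
  have hX0 : (0 : ℝ) < X.card := lt_of_lt_of_le (by positivity) hXc
  -- `4 ^ n ≤ e^{n/50} |X|^2`
  have h4 : (4 : ℝ) ^ S.card ≤ Real.exp (n / 50) * (X.card : ℝ) ^ 2 := by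
    have h5 : (2 : ℝ) ^ S.card ≤ Real.exp (n / 100) * X.card := by
      calc (2 : ℝ) ^ S.card = Real.exp (n / 100) * (2 ^ S.card * Real.exp (-n / 100)) := by
            rw [mul_comm ((2 : ℝ) ^ S.card), ← mul_assoc, ← Real.exp_add]
            rw [show n / 100 + -n / 100 = 0 by ring, Real.exp_zero, one_mul]
        _ ≤ _ := by gcongr
    calc (4 : ℝ) ^ S.card = ((2 : ℝ) ^ S.card) ^ 2 := by
          rw [← pow_mul, mul_comm, pow_mul]; norm_num
      _ ≤ (Real.exp (n / 100) * X.card) ^ 2 := by gcongr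
      _ = _ := by rw [mul_pow, ← Real.exp_nat_mul]; congr 2; push_cast; ring
  have h6 : (1 - t) ^ (r * S.card) ≤ Real.exp (-t * r * n) := by
    have h7 : 1 - t ≤ Real.exp (-t) := by linarith [Real.add_one_le_exp (-t)]
    calc (1 - t) ^ (r * S.card) ≤ (Real.exp (-t)) ^ (r * S.card) :=
          pow_le_pow_left₀ (by linarith) h7 _
      _ = _ := by rw [← Real.exp_nat_mul]; congr 1; push_cast; ring
  have h8 : Z ^ (2 * r) ≤ (Real.exp (-(2 / 5) * t * n) * (X.card : ℝ) ^ 2) ^ (2 * r) := by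
    calc Z ^ (2 * r) ≤ (4 * (Real.cos φ ^ 2) ^ r) ^ S.card * ((X.card : ℝ) ^ 2) ^ (2 * r - 1) := h1
      _ = 4 ^ S.card * (1 - t) ^ (r * S.card) * ((X.card : ℝ) ^ 2) ^ (2 * r - 1) := by
          rw [hcos2, mul_pow, ← pow_mul]
      _ ≤ (Real.exp (n / 50) * (X.card : ℝ) ^ 2) * Real.exp (-t * r * n) *
            ((X.card : ℝ) ^ 2) ^ (2 * r - 1) := by
          have : 0 ≤ (1 - t) ^ (r * S.card) := pow_nonneg (by linarith) _
          gcongr
      _ = Real.exp (n / 50 + -t * r * n) * ((X.card : ℝ) ^ 2) ^ (2 * r) := by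
          have e1 : ((X.card : ℝ) ^ 2) ^ (2 * r) =
              ((X.card : ℝ) ^ 2) ^ (2 * r - 1) * (X.card : ℝ) ^ 2 := by
            rw [← pow_succ]
            congr 1
            omega
          rw [Real.exp_add, e1]
          ring
      _ ≤ Real.exp (-(4 / 5) * t * r * n) * ((X.card : ℝ) ^ 2) ^ (2 * r) := by
          gcongr
          nlinarith [mul_nonneg hn0 (sub_nonneg.2 hr3)]
      _ = _ := by
          rw [mul_pow, ← Real.exp_nat_mul]
          congr 2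
          push_cast
          ring
  exact le_of_pow_le_pow_left₀ (by omega) (by positivity) h8

end Pool.Agent.Helper96.WS
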