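import Mathlib

/-!
# Multicolour Ramsey argument with a sparse set of popular colours
-/

set_option autoImplicit false

namespace Pool.Agent.Helper96.WS

open Finset

theorem ramsey {β : Type*} [DecidableEq β] (c : β → β → ℕ) (hsymm : ∀ x y, c x y = c y x)
    (L : Finset ℕ) (hL : L.Nonempty) (D m : ℝ) (hD : 1 ≤ D) (hm : 0 < m) (F : Finset β)
    (hpop : ∀ X ⊆ F, m ≤ (X.card : ℝ) → ∃ x ∈ X, ∃ l ∈ L,
      (X.card : ℝ) ≤ D * (((X.erase x).filter fun y => c x y = l).card : ℝ)) (N : ℕ) :
    ∀ t : ℕ → ℕ, ∑ l ∈ L, t l = N → ∀ X ⊆ F, m * D ^ N ≤ (X.card : ℝ) →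
      ∃ l ∈ L, ∃ S ⊆ X, S.card = t l + 1 ∧ ∀ x ∈ S, ∀ y ∈ S, x ≠ y → c x y = l := by
  have hsingle : ∀ t : ℕ → ℕ, ∀ X : Finset β, 0 < (X.card : ℝ) → (∃ l ∈ L, t l = 0) →
      ∃ l ∈ L, ∃ S ⊆ X, S.card = t l + 1 ∧ ∀ x ∈ S, ∀ y ∈ S, x ≠ y → c x y = l := by
    rintro t X hX ⟨l, hl, hl0⟩
    have : X.Nonempty := by rw [← card_pos]; exact_mod_cast hX
    obtain ⟨x, hx⟩ := this
    refine ⟨l, hl, {x}, by simpa using hx, by simp [hl0], ?_⟩
    intro y hy z hz hyz
    rw [mem_singleton] at hy hz
    exact absurd (hy.trans hz.symm) hyz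
  induction N with
  | zero =>
    intro t ht X _ hXc
    apply hsingle t X (lt_of_lt_of_le (by positivity) hXc)
    obtain ⟨l, hl⟩ := hL
    exact ⟨l, hl, (sum_eq_zero_iff.1 ht) l hl⟩
  | succ N ih =>
    intro t ht X hXF hXc
    by_cases h0 : ∃ l ∈ L, t l = 0
    · exact hsingle t X (lt_of_lt_of_le (by positivity) hXc) h0
    · push Not at h0
      have hmX : m ≤ (X.card : ℝ) := by
        refine le_trans ?_ hXc
        exact le_mul_of_one_le_right hm.le (one_le_pow₀ hD)
      obtain ⟨x, hx, l, hl, hcard⟩ := hpop X hXF hmX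
      set Y := (X.erase x).filter fun y => c x y = l with hY
      have hYX : Y ⊆ X := (filter_subset _ _).trans (erase_subset _ _)
      have hYc : m * D ^ N ≤ (Y.card : ℝ) := by
        have h1 : D * (m * D ^ N) ≤ D * (Y.card : ℝ) := by
          calc D * (m * D ^ N) = m * D ^ (N + 1) := by ring
            _ ≤ X.card := hXc
            _ ≤ _ := hcard
        exact le_of_mul_le_mul_left h1 (by linarith)
      set t' : ℕ → ℕ := Function.update t l (t l - 1) with ht'
      have hsum : ∑ i ∈ L, t' i = N := by
        have h1 : ∑ i ∈ L, t' i = (∑ i ∈ L.erase l, t i) + (t l - 1) := by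
          rw [← sum_erase_add L t' hl]
          congr 1
          · apply sum_congr rfl
            intro i hi
            rw [ht', Function.update_of_ne (ne_of_mem_erase hi)]
          · rw [ht', Function.update_self]
        have h2 : ∑ i ∈ L, t i = (∑ i ∈ L.erase l, t i) + t l := (sum_erase_add L t hl).symm
        have h3 : t l ≠ 0 := h0 l hl
        omega
      obtain ⟨l', hl', S, hS, hSc, hcol⟩ := ih t' hsum Y (hYX.trans hXF) hYc
      by_cases hll : l' = l
      · subst hll
        have hxS : x ∉ S := by
          intro h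
          have := hS h
          rw [hY, mem_filter] at this
          exact (mem_erase.1 this.1).1 rfl
        refine ⟨l', hl', insert x S, ?_, ?_, ?_⟩
        · intro y hy
          rw [mem_insert] at hy
          rcases hy with rfl | hy
          · exact hx
          · exact hYX (hS hy)
        · rw [card_insert_of_notMem hxS, hSc, ht', Function.update_self]
          have h3 : t l' ≠ 0 := h0 l' hl
          omega
        · intro y hy z hz hyz
          rw [mem_insert] at hy hz
          have hxc : ∀ w ∈ S, c x w = l' := by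
            intro w hw
            have := hS hw
            rw [hY, mem_filter] at this
            exact this.2
          rcases hy with rfl | hy
          · rcases hz with rfl | hz
            · exact absurd rfl hyz
            · exact hxc z hz
          · rcases hz with rfl | hz
            · rw [hsymm]; exact hxc y hy
            · exact hcol y hy z hz hyz
      · refine ⟨l', hl', S, hS.trans hYX, ?_, hcol⟩
        rw [hSc, ht', Function.update_of_ne hll]

end Pool.Agent.Helper96.WS
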