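import Pool.Agent.Helper96.WS.Popular
import Pool.Agent.Helper96.WS.Ramsey

/-!
# Weak sunflowers in families of size `1.99 ^ n`
-/

set_option autoImplicit false

namespace Pool.Agent.Helper96.WS

open Finset

theorem log_ratio : -(0.00503 : ℝ) ≤ Real.log (1.99 / 2) := by
  have h := Real.one_sub_inv_le_log_of_pos (show (0 : ℝ) < 1.99 / 2 by norm_num)
  refine le_trans ?_ h
  norm_num

/-- The numerical conditions for large `n`. -/
theorem numerics (k n M : ℕ) (hk : 1 ≤ k) (hM : (6500 * k) ^ 2 ≤ M) (hMn : M ^ 4 ≤ n)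
    (hnM : n < (M + 1) ^ 4) :
    Real.exp (-(2 / 5) * (1 / (M : ℝ) ^ 2) * n) ≤ 1 / (2 * M) ∧
    (8 * n : ℝ) ≤ 2 ^ n * Real.exp (-(n : ℝ) / 100) ∧
    2 ^ n * Real.exp (-(n : ℝ) / 100) * (8 * n : ℝ) ^ ((n / M + 1) * (k - 1)) ≤ 1.99 ^ n := by
  have hk1 : (1 : ℝ) ≤ k := by exact_mod_cast hk
  have hMr : (6500 * (k : ℝ)) ^ 2 ≤ M := by exact_mod_cast hM
  have hMnr : (M : ℝ) ^ 4 ≤ n := by exact_mod_cast hMn
  have hnMr : (n : ℝ) ≤ ((M : ℝ) + 1) ^ 4 := by exact_mod_cast hnM.le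
  have hM1 : (42250000 : ℝ) ≤ M := by nlinarith
  have hM0 : (0 : ℝ) < M := by linarith
  have hn0 : (0 : ℝ) < n := lt_of_lt_of_le (by positivity) hMnr
  refine ⟨?_, ?_, ?_⟩
  · -- first
    have h1 : (M : ℝ) ^ 2 ≤ 1 / (M : ℝ) ^ 2 * n := by
      rw [one_div, inv_mul_eq_div, le_div_iff₀ (by positivity)]
      calc (M : ℝ) ^ 2 * (M : ℝ) ^ 2 = (M : ℝ) ^ 4 := by ring
        _ ≤ (n : ℝ) := hMnr
    have h2 : -(2 / 5) * (1 / (M : ℝ) ^ 2) * n ≤ -(2 / 5 * (M : ℝ) ^ 2) := by nlinarith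
    calc Real.exp (-(2 / 5) * (1 / (M : ℝ) ^ 2) * n) ≤ Real.exp (-(2 / 5 * (M : ℝ) ^ 2)) :=
          Real.exp_le_exp.2 h2
      _ = 1 / Real.exp (2 / 5 * (M : ℝ) ^ 2) := by rw [Real.exp_neg, one_div]
      _ ≤ 1 / (2 * M) := by
          apply one_div_le_one_div_of_le (by positivity)
          have := Real.add_one_le_exp (2 / 5 * (M : ℝ) ^ 2)
          nlinarith
  · have hn1 : (42250000 : ℝ) ≤ n := by
      refine hM1.trans (le_trans ?_ hMnr)
      have : (1 : ℝ) ≤ (M : ℝ) ^ 3 := one_le_pow₀ (by linarith)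
      nlinarith
    have h1 : (2 : ℝ) ^ n = Real.exp (n * Real.log 2) := by
      rw [Real.exp_nat_mul, Real.exp_log (by norm_num)]
    have hl : (0.69 : ℝ) < Real.log 2 := by linarith [Real.log_two_gt_d9]
    rw [h1, ← Real.exp_add]
    have h2 : (n : ℝ) / 2 ≤ n * Real.log 2 + -(n : ℝ) / 100 := by nlinarith
    have h3 := Real.quadratic_le_exp_of_nonneg (show 0 ≤ (n : ℝ) / 2 by positivity)
    calc (8 * n : ℝ) ≤ 1 + (n : ℝ) / 2 + ((n : ℝ) / 2) ^ 2 / 2 := by nlinarith
      _ ≤ Real.exp ((n : ℝ) / 2) := h3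
      _ ≤ _ := Real.exp_le_exp.2 h2
  · -- third
    set q : ℕ := (n / M + 1) * (k - 1) with hq
    have hlog8 : Real.log (8 * n) ≤ 13 * Real.sqrt M := by
      have hs0 : 0 < Real.sqrt M := Real.sqrt_pos.2 hM0
      have hs : Real.sqrt M ^ 2 = M := Real.sq_sqrt hM0.le
      have h1 : (8 * n : ℝ) ≤ (Real.sqrt M) ^ 8 * 128 := by
        have : (n : ℝ) ≤ (2 * M) ^ 4 := hnMr.trans (pow_le_pow_left₀ (by positivity) (by linarith) 4)
        calc (8 * n : ℝ) ≤ 8 * (2 * M) ^ 4 := by linarith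
          _ = (M : ℝ) ^ 4 * 128 := by ring
          _ = (Real.sqrt M ^ 2) ^ 4 * 128 := by rw [hs]
          _ = _ := by ring
      have h2 : Real.log 128 ≤ 5 := by
        have : (128 : ℝ) = 2 ^ 7 := by norm_num
        rw [this, Real.log_pow]
        have := Real.log_two_lt_d9
        push_cast
        linarith
      have h3 : Real.log (Real.sqrt M) ≤ Real.sqrt M - 1 := Real.log_le_sub_one_of_pos hs0
      have h4 : 1 ≤ Real.sqrt M := by
        rw [Real.one_le_sqrt]; linarith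
      calc Real.log (8 * n) ≤ Real.log ((Real.sqrt M) ^ 8 * 128) :=
            Real.log_le_log (by positivity) h1
        _ = 8 * Real.log (Real.sqrt M) + Real.log 128 := by
            rw [Real.log_mul (by positivity) (by norm_num), Real.log_pow]; push_cast; ring
        _ ≤ 13 * Real.sqrt M := by linarith
    have hlog0 : 0 ≤ Real.log (8 * n) := by
      apply Real.log_nonneg
      have : (1 : ℝ) ≤ (M : ℝ) ^ 4 := one_le_pow₀ (by linarith)
      linarith
    have hqr : (q : ℝ) ≤ 2 * n / M * k := by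
      rw [hq]
      push_cast
      have h1 : ((n / M : ℕ) : ℝ) ≤ n / M := Nat.cast_div_le
      have h2 : (1 : ℝ) ≤ n / M := by
        rw [le_div_iff₀ hM0]
        have : (1 : ℝ) ≤ (M : ℝ) ^ 3 := one_le_pow₀ (by linarith)
        nlinarith
      have h3 : ((k - 1 : ℕ) : ℝ) ≤ k := by exact_mod_cast Nat.sub_le k 1
      calc (((n / M : ℕ) : ℝ) + 1) * ((k - 1 : ℕ) : ℝ) ≤ (n / M + n / M) * k := by gcongr
        _ = _ := by ring
    have hsq : 6500 * (k : ℝ) ≤ Real.sqrt M := Real.le_sqrt_of_sq_le hMr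
    have hmain : q * Real.log (8 * n) ≤ 0.004 * n := by
      have hs0 : 0 < Real.sqrt M := Real.sqrt_pos.2 hM0
      have hs : Real.sqrt M * Real.sqrt M = M := Real.mul_self_sqrt hM0.le
      calc q * Real.log (8 * n) ≤ (2 * n / M * k) * (13 * Real.sqrt M) := by gcongr
        _ = 26 * n * k * (Real.sqrt M / M) := by ring
        _ = 26 * n * k * (1 / Real.sqrt M) := by
            congr 1
            rw [div_eq_div_iff (by positivity) (by positivity)]
            linarith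
        _ = 26 * n * (k / Real.sqrt M) := by ring
        _ ≤ 26 * n * (1 / 6500) := by
            apply mul_le_mul_of_nonneg_left _ (by positivity)
            rw [div_le_div_iff₀ hs0 (by norm_num)]
            linarith
        _ = 0.004 * n := by ring
    have e1 : (2 : ℝ) ^ n = Real.exp (n * Real.log 2) := by
      rw [Real.exp_nat_mul, Real.exp_log (by norm_num)]
    have e2 : (1.99 : ℝ) ^ n = Real.exp (n * Real.log 1.99) := by
      rw [Real.exp_nat_mul, Real.exp_log (by norm_num)]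
    have e3 : (8 * n : ℝ) ^ q = Real.exp (q * Real.log (8 * n)) := by
      rw [Real.exp_nat_mul, Real.exp_log (by positivity)]
    rw [e1, e2, e3, ← Real.exp_add, ← Real.exp_add]
    apply Real.exp_le_exp.2
    have h5 := log_ratio
    rw [Real.log_div (by norm_num) (by norm_num)] at h5
    nlinarith

/-- The main theorem. -/
theorem main (k : ℕ) (hk : 3 ≤ k) : ∃ N : ℕ, ∀ n : ℕ, N ≤ n →
    ∀ F : Finset (Finset (Fin n)), (1.99 : ℝ) ^ n ≤ (F.card : ℝ) →
      ∃ S : Finset (Finset (Fin n)), S ⊆ F ∧ S.card = k ∧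
        ∃ m : ℕ, ∀ A ∈ S, ∀ B ∈ S, A ≠ B → (A ∩ B).card = m := by
  refine ⟨((6500 * k) ^ 2) ^ 4, fun n hn F hF => ?_⟩
  set M : ℕ := Nat.sqrt (Nat.sqrt n) with hM
  have hM1 : (6500 * k) ^ 2 ≤ M := by
    rw [hM, Nat.le_sqrt', Nat.le_sqrt']
    calc (((6500 * k) ^ 2) ^ 2) ^ 2 = ((6500 * k) ^ 2) ^ 4 := by ring
      _ ≤ n := hn
  have hM4 : M ^ 4 ≤ n := by
    have h1 : M ^ 2 ≤ Nat.sqrt n := Nat.sqrt_le' _
    have h2 : (Nat.sqrt n) ^ 2 ≤ n := Nat.sqrt_le' _
    calc M ^ 4 = (M ^ 2) ^ 2 := by ring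
      _ ≤ (Nat.sqrt n) ^ 2 := Nat.pow_le_pow_left h1 2
      _ ≤ n := h2
  have hM5 : n < (M + 1) ^ 4 := by
    have h1 : Nat.sqrt n < (M + 1) ^ 2 := Nat.lt_succ_sqrt' _
    have h2 : n < (Nat.sqrt n + 1) ^ 2 := Nat.lt_succ_sqrt' _
    calc n < (Nat.sqrt n + 1) ^ 2 := h2
      _ ≤ ((M + 1) ^ 2) ^ 2 := Nat.pow_le_pow_left h1 2
      _ = (M + 1) ^ 4 := by ring
  obtain ⟨c1, c2, c3⟩ := numerics k n M (by omega) hM1 hM4 hM5
  have hMpos : 1 ≤ M := le_trans (Nat.one_le_pow _ _ (by omega)) hM1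
  have hMn : M ≤ n := le_trans (Nat.le_self_pow (by norm_num) M) hM4
  have hn1 : 1 ≤ n := hMpos.trans hMn
  have hnr : (1 : ℝ) ≤ n := by exact_mod_cast hn1
  set m : ℝ := 2 ^ n * Real.exp (-(n : ℝ) / 100) with hm
  have hm0 : 0 < m := by positivity
  set L : Finset ℕ := (range (n / M + 1)).image (· * M) with hL
  have hLc : L.card ≤ n / M + 1 := by
    refine card_image_le.trans ?_
    rw [card_range]
  have hpop : ∀ X ⊆ F, m ≤ (X.card : ℝ) → ∃ x ∈ X, ∃ l ∈ L,
      (X.card : ℝ) ≤ (8 * n) * (((X.erase x).filter fun y => (x ∩ y).card = l).card : ℝ) := by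
    intro X _ hX
    obtain ⟨B, hB, j, hj, hcard⟩ := exists_popular (univ : Finset (Fin n)) X
      (fun A _ => mem_powerset.2 (subset_univ A)) M hMpos (by simpa using hMn)
      (by simpa using hX) (by simpa using c1)
    rw [card_univ, Fintype.card_fin] at hcard hj
    refine ⟨B, hB, j * M, mem_image_of_mem _ hj, ?_⟩
    have h1 : (X.filter fun A => (A ∩ B).card = j * M).card ≤
        ((X.erase B).filter fun y => (B ∩ y).card = j * M).card + 1 := by
      have : (X.filter fun A => (A ∩ B).card = j * M) ⊆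
          insert B ((X.erase B).filter fun y => (B ∩ y).card = j * M) := by
        intro A hA
        rw [mem_filter] at hA
        rw [mem_insert]
        by_cases hAB : A = B
        · exact Or.inl hAB
        · right
          rw [mem_filter, inter_comm]
          exact ⟨mem_erase.2 ⟨hAB, hA.1⟩, hA.2⟩
      exact (card_le_card this).trans (card_insert_le _ _)
    have h2 : ((X.filter fun A => (A ∩ B).card = j * M).card : ℝ) ≤
        (((X.erase B).filter fun y => (B ∩ y).card = j * M).card : ℝ) + 1 := by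
      exact_mod_cast h1
    have h3 : (8 * n : ℝ) ≤ X.card := c2.trans hX
    nlinarith
  have hFc : m * (8 * n : ℝ) ^ (∑ _l ∈ L, (k - 1)) ≤ (F.card : ℝ) := by
    rw [sum_const, smul_eq_mul]
    refine le_trans ?_ (c3.trans hF)
    apply mul_le_mul_of_nonneg_left _ hm0.le
    apply pow_le_pow_right₀ (by linarith)
    exact Nat.mul_le_mul_right _ hLc
  obtain ⟨l, _, S, hS, hSc, hcol⟩ := ramsey (fun x y : Finset (Fin n) => (x ∩ y).card)
    (fun x y => by rw [inter_comm]) L ⟨0, by rw [hL, mem_image]; exact ⟨0, by simp, by simp⟩⟩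
    (8 * n) m (by linarith) hm0 F hpop (∑ _l ∈ L, (k - 1)) (fun _ => k - 1) rfl F subset_rfl hFc
  exact ⟨S, hS, by omega, l, hcol⟩

end Pool.Agent.Helper96.WS
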