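import Pool.Agent.Helper96.WS.Count

/-!
# Popular intersection sizes divisible by `M`
-/

set_option autoImplicit false

namespace Pool.Agent.Helper96.WS

open Finset

/-- Orthogonality relation. -/
theorem orthogonality (M : ℕ) (hM : 1 ≤ M) (m : ℕ) :
    ∑ a ∈ range M, ((Complex.exp (2 * Real.pi * Complex.I / M)) ^ a) ^ m =
      if M ∣ m then (M : ℂ) else 0 := by
  have hM0 : M ≠ 0 := by omega
  have hζ := Complex.isPrimitiveRoot_exp M hM0
  set ζ := Complex.exp (2 * Real.pi * Complex.I / M) with hζd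
  have e : ∀ a, (ζ ^ a) ^ m = (ζ ^ m) ^ a := fun a => by rw [← pow_mul, ← pow_mul, mul_comm]
  simp only [e]
  split_ifs with h
  · rw [(hζ.pow_eq_one_iff_dvd m).2 h]
    simp
  · have h1 : ζ ^ m ≠ 1 := fun h2 => h ((hζ.pow_eq_one_iff_dvd m).1 h2)
    rw [geom_sum_eq h1, ← pow_mul, mul_comm m M, pow_mul, hζ.pow_eq_one, one_pow, sub_self,
      zero_div]

/-- The angle for the `a`-th power of the root of unity. -/
theorem exists_angle (M a : ℕ) (ha : 1 ≤ a) (haM : a < M) :
    ∃ φ : ℝ, |φ| ≤ Real.pi / 4 ∧ φ ≠ 0 ∧ 1 / (M : ℝ) ^ 2 ≤ Real.sin φ ^ 2 ∧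
      (Complex.exp (2 * Real.pi * Complex.I / M)) ^ a =
        Complex.exp ((4 * φ : ℝ) * Complex.I) := by
  have hpi := Real.pi_pos
  have hM0 : (0 : ℝ) < M := by exact_mod_cast (by omega : 0 < M)
  have hMc : (M : ℂ) ≠ 0 := by exact_mod_cast hM0.ne'
  have ha1 : (1 : ℝ) ≤ a := by exact_mod_cast ha
  have haM1 : (a : ℝ) + 1 ≤ M := by exact_mod_cast haM
  -- a general statement for positive angles
  have key : ∀ ψ : ℝ, Real.pi / (2 * M) ≤ ψ → ψ ≤ Real.pi / 4 →
      1 / (M : ℝ) ^ 2 ≤ Real.sin ψ ^ 2 := by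
    intro ψ h1 h2
    have h0 : 0 ≤ ψ := le_trans (by positivity) h1
    have h3 := Real.mul_le_sin h0 (by linarith)
    have h4 : 1 / (M : ℝ) ≤ Real.sin ψ := by
      calc 1 / (M : ℝ) = 2 / Real.pi * (Real.pi / (2 * M)) := by field_simp
        _ ≤ 2 / Real.pi * ψ := by gcongr
        _ ≤ _ := h3
    calc 1 / (M : ℝ) ^ 2 = (1 / (M : ℝ)) ^ 2 := by rw [div_pow, one_pow]
      _ ≤ _ := pow_le_pow_left₀ (by positivity) h4 2
  rcases le_total (2 * a) M with h | h
  · have h' : 2 * (a : ℝ) ≤ M := by exact_mod_cast h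
    have hφ0 : 0 < Real.pi * a / (2 * M) := by positivity
    refine ⟨Real.pi * a / (2 * M), ?_, hφ0.ne', ?_, ?_⟩
    · rw [abs_of_pos hφ0, div_le_div_iff₀ (by positivity) (by norm_num)]
      nlinarith
    · apply key
      · rw [div_le_div_iff₀ (by positivity) (by positivity)]
        nlinarith [mul_pos hpi hM0]
      · rw [div_le_div_iff₀ (by positivity) (by norm_num)]
        nlinarith
    · rw [← Complex.exp_nat_mul]
      congr 1
      push_cast
      field_simp
      ring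
  · have h' : (M : ℝ) ≤ 2 * a := by exact_mod_cast h
    have hφ0 : 0 < Real.pi * (M - a) / (2 * M) := by
      apply div_pos _ (by positivity)
      exact mul_pos hpi (by linarith)
    refine ⟨-(Real.pi * (M - a) / (2 * M)), ?_, by linarith, ?_, ?_⟩
    · rw [abs_neg, abs_of_pos hφ0, div_le_div_iff₀ (by positivity) (by norm_num)]
      nlinarith
    · rw [Real.sin_neg, neg_sq]
      apply key
      · rw [div_le_div_iff₀ (by positivity) (by positivity)]
        nlinarith [mul_pos hpi hM0]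
      · rw [div_le_div_iff₀ (by positivity) (by norm_num)]
        nlinarith
    · rw [← Complex.exp_nat_mul]
      have e1 : ((4 * -(Real.pi * (M - a) / (2 * M)) : ℝ) : ℂ) * Complex.I =
          (a : ℂ) * (2 * Real.pi * Complex.I / M) - 2 * Real.pi * Complex.I := by
        push_cast
        field_simp
        ring
      rw [e1, Complex.exp_sub, Complex.exp_two_pi_mul_I, div_one]

variable {α : Type*} [DecidableEq α]

/-- Many pairs have intersection size divisible by `M`. -/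
theorem many_pairs (S : Finset α) (X : Finset (Finset α)) (hX : X ⊆ S.powerset) (M : ℕ)
    (hM : 1 ≤ M) (hXc : 2 ^ S.card * Real.exp (-(S.card : ℝ) / 100) ≤ (X.card : ℝ))
    (hMn : Real.exp (-(2 / 5) * (1 / (M : ℝ) ^ 2) * S.card) ≤ 1 / (2 * M)) :
    (X.card : ℝ) ^ 2 ≤
      2 * M * ∑ B ∈ X, ((X.filter fun A => M ∣ (A ∩ B).card).card : ℝ) := by
  have hM0 : (0 : ℝ) < M := by exact_mod_cast (by omega : 0 < M)
  set ζ := Complex.exp (2 * Real.pi * Complex.I / M) with hζd
  set T : ℕ → ℂ := fun a => ∑ B ∈ X, ∑ A ∈ X, (ζ ^ a) ^ (A ∩ B).card with hT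
  have h1 : ∑ a ∈ range M, T a =
      (M : ℂ) * ∑ B ∈ X, ((X.filter fun A => M ∣ (A ∩ B).card).card : ℂ) := by
    simp only [hT]
    rw [sum_comm, mul_sum]
    apply sum_congr rfl
    intro B _
    rw [sum_comm]
    simp only [hζd, orthogonality M hM]
    rw [← sum_filter, sum_const, nsmul_eq_mul, mul_comm]
  have h0 : T 0 = (X.card : ℂ) ^ 2 := by
    simp only [hT, pow_zero, one_pow, sum_const, nsmul_eq_mul, mul_one]
    ring
  have hbd : ∀ a, 1 ≤ a → a < M → ‖T a‖ ≤ 1 / (2 * M) * (X.card : ℝ) ^ 2 := by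
    intro a ha haM
    obtain ⟨φ, h2, h3, h4, h5⟩ := exists_angle M a ha haM
    have h6 := expsum_bound S X hX φ h2 h3 hXc
    rw [← h5] at h6
    refine h6.trans ?_
    apply mul_le_mul_of_nonneg_right _ (by positivity)
    refine le_trans ?_ hMn
    apply Real.exp_le_exp.2
    have : (0 : ℝ) ≤ S.card := Nat.cast_nonneg _
    nlinarith [mul_le_mul_of_nonneg_right h4 this]
  have h2 : ∑ a ∈ range M, T a = T 0 + ∑ a ∈ Ico 1 M, T a := by
    rw [range_eq_Ico, sum_eq_sum_Ico_succ_bot (by omega)]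
  have h3 : ‖∑ a ∈ Ico 1 M, T a‖ ≤ 1 / 2 * (X.card : ℝ) ^ 2 := by
    calc ‖∑ a ∈ Ico 1 M, T a‖ ≤ ∑ a ∈ Ico 1 M, ‖T a‖ := norm_sum_le _ _
      _ ≤ ∑ a ∈ Ico 1 M, 1 / (2 * M) * (X.card : ℝ) ^ 2 := by
          apply sum_le_sum
          intro a ha
          rw [mem_Ico] at ha
          exact hbd a ha.1 ha.2
      _ = ((M - 1 : ℕ) : ℝ) * (1 / (2 * M) * (X.card : ℝ) ^ 2) := by
          rw [sum_const, Nat.card_Ico, nsmul_eq_mul]
      _ ≤ (M : ℝ) * (1 / (2 * M) * (X.card : ℝ) ^ 2) := by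
          gcongr
          omega
      _ = 1 / 2 * (X.card : ℝ) ^ 2 := by field_simp
  set Q : ℝ := ∑ B ∈ X, ((X.filter fun A => M ∣ (A ∩ B).card).card : ℝ) with hQ
  have h4 : ((M * Q : ℝ) : ℂ) = (((X.card : ℝ) ^ 2 : ℝ) : ℂ) + ∑ a ∈ Ico 1 M, T a := by
    have : ((M * Q : ℝ) : ℂ) = ∑ a ∈ range M, T a := by
      rw [h1, hQ]; push_cast; rfl
    rw [this, h2, h0]
    push_cast
    rfl
  have h5 : (X.card : ℝ) ^ 2 - M * Q ≤ 1 / 2 * (X.card : ℝ) ^ 2 := by
    have h6 : ∑ a ∈ Ico 1 M, T a = ((M * Q - (X.card : ℝ) ^ 2 : ℝ) : ℂ) := by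
      push_cast at h4 ⊢
      rw [h4]; ring
    rw [h6, Complex.norm_real, Real.norm_eq_abs] at h3
    have := neg_abs_le (M * Q - (X.card : ℝ) ^ 2)
    linarith
  linarith

/-- There is a popular intersection size divisible by `M`. -/
theorem exists_popular (S : Finset α) (X : Finset (Finset α)) (hX : X ⊆ S.powerset) (M : ℕ)
    (hM : 1 ≤ M) (hMS : M ≤ S.card)
    (hXc : 2 ^ S.card * Real.exp (-(S.card : ℝ) / 100) ≤ (X.card : ℝ))
    (hMn : Real.exp (-(2 / 5) * (1 / (M : ℝ) ^ 2) * S.card) ≤ 1 / (2 * M)) :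
    ∃ B ∈ X, ∃ j ∈ range (S.card / M + 1),
      (X.card : ℝ) ≤ 4 * S.card * ((X.filter fun A => (A ∩ B).card = j * M).card : ℝ) := by
  by_contra hcon
  push Not at hcon
  have hM0 : (0 : ℝ) < M := by exact_mod_cast (by omega : 0 < M)
  have hX0 : (0 : ℝ) < X.card := lt_of_lt_of_le (by positivity) hXc
  have hn0 : (0 : ℝ) < S.card := by exact_mod_cast (by omega : 0 < S.card)
  have hXne : X.Nonempty := by
    rw [← card_pos]; exact_mod_cast hX0
  have h1 := many_pairs S X hX M hM hXc hMn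
  -- split according to the quotient
  have h2 : ∀ B ∈ X, ((X.filter fun A => M ∣ (A ∩ B).card).card : ℝ) ≤
      ∑ j ∈ range (S.card / M + 1), ((X.filter fun A => (A ∩ B).card = j * M).card : ℝ) := by
    intro B hB
    have h3 : (X.filter fun A => M ∣ (A ∩ B).card) ⊆
        (range (S.card / M + 1)).biUnion fun j => X.filter fun A => (A ∩ B).card = j * M := by
      intro A hA
      rw [mem_filter] at hA
      obtain ⟨hA1, j, hj⟩ := hA
      rw [mem_biUnion]
      refine ⟨j, ?_, ?_⟩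
      · rw [mem_range, Nat.lt_succ_iff, Nat.le_div_iff_mul_le (by omega)]
        calc j * M = (A ∩ B).card := by rw [hj, mul_comm]
          _ ≤ S.card := card_le_card (inter_subset_left.trans (mem_powerset.1 (hX hA1)))
      · rw [mem_filter]
        exact ⟨hA1, by rw [hj, mul_comm]⟩
    have h4 := (card_le_card h3).trans card_biUnion_le
    exact_mod_cast h4
  have h5 : ∑ B ∈ X, ((X.filter fun A => M ∣ (A ∩ B).card).card : ℝ) <
      ∑ B ∈ X, ((S.card / M + 1 : ℕ) : ℝ) * (X.card / (4 * S.card)) := by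
    apply sum_lt_sum_of_nonempty hXne
    intro B hB
    refine (h2 B hB).trans_lt ?_
    rw [← card_range (S.card / M + 1), ← nsmul_eq_mul, ← sum_const]
    rw [card_range]
    apply sum_lt_sum_of_nonempty ⟨0, by simp⟩
    intro j hj
    rw [lt_div_iff₀ (by positivity)]
    have := hcon B hB j hj
    linarith
  rw [sum_const, nsmul_eq_mul] at h5
  have h6 : ((S.card / M + 1 : ℕ) : ℝ) * M ≤ 2 * S.card := by
    have : (S.card / M + 1) * M ≤ 2 * S.card := by
      have := Nat.div_mul_le_self S.card M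
      rw [add_mul]
      omega
    exact_mod_cast this
  have h7 : 2 * M * (X.card * (((S.card / M + 1 : ℕ) : ℝ) * (X.card / (4 * S.card)))) ≤
      (X.card : ℝ) ^ 2 := by
    have e1 : 2 * M * (X.card * (((S.card / M + 1 : ℕ) : ℝ) * (X.card / (4 * S.card)))) =
        (((S.card / M + 1 : ℕ) : ℝ) * M) * ((X.card : ℝ) ^ 2 / (2 * S.card)) := by
      field_simp
      ring
    rw [e1]
    calc _ ≤ (2 * S.card) * ((X.card : ℝ) ^ 2 / (2 * S.card)) := by gcongr
      _ = _ := by field_simp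
  have h8 : 2 * M * ∑ B ∈ X, ((X.filter fun A => M ∣ (A ∩ B).card).card : ℝ) <
      2 * M * (X.card * (((S.card / M + 1 : ℕ) : ℝ) * (X.card / (4 * S.card)))) :=
    mul_lt_mul_of_pos_left h5 (by positivity)
  linarith

end Pool.Agent.Helper96.WS
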