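import Pool.Agent.Helper96.WS.Complex

/-!
# Tensor power of the two point inequality
-/

set_option autoImplicit false

namespace Pool.Agent.Helper96.WS

open Finset

variable {α : Type*} [DecidableEq α]

/-- The transform `B ↦ ∑_{A ⊆ S} f(A) ω^{|A ∩ B|}`. -/
noncomputable def trans (ω : ℂ) (S : Finset α) (f : Finset α → ℂ) (B : Finset α) : ℂ :=
  ∑ A ∈ S.powerset, f A * ω ^ (A ∩ B).card

theorem trans_insert_left (ω : ℂ) {S : Finset α} {a : α} (ha : a ∉ S) (f : Finset α → ℂ)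
    {B : Finset α} (hB : B ⊆ S) :
    trans ω (insert a S) f B = trans ω S f B + trans ω S (fun A => f (insert a A)) B := by
  unfold trans
  rw [sum_powerset_insert ha]
  congr 1
  apply sum_congr rfl
  intro A _
  rw [insert_inter_of_notMem (fun h => ha (hB h))]

theorem trans_insert_right (ω : ℂ) {S : Finset α} {a : α} (ha : a ∉ S) (f : Finset α → ℂ)
    {B : Finset α} (hB : B ⊆ S) :
    trans ω (insert a S) f (insert a B) =
      trans ω S f B + ω * trans ω S (fun A => f (insert a A)) B := by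
  unfold trans
  rw [sum_powerset_insert ha, mul_sum]
  congr 1
  · apply sum_congr rfl
    intro A hA
    rw [inter_insert_of_notMem (fun h => ha (mem_powerset.1 hA h))]
  · apply sum_congr rfl
    intro A hA
    rw [← insert_inter_distrib, card_insert_of_notMem, pow_succ]
    · ring
    · intro h
      exact ha (hB (mem_inter.1 h).2)

/-- Minkowski inequality in a convenient form. -/
theorem minkowski {ι : Type*} (s : Finset ι) (U V : ι → ℝ) (hU : ∀ i ∈ s, 0 ≤ U i)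
    (hV : ∀ i ∈ s, 0 ≤ V i) (m : ℕ) (hm : 1 ≤ m) (u v : ℝ) (hu : 0 ≤ u) (hv : 0 ≤ v)
    (hUu : ∑ i ∈ s, U i ^ m ≤ u ^ m) (hVv : ∑ i ∈ s, V i ^ m ≤ v ^ m) :
    ∑ i ∈ s, (U i + V i) ^ m ≤ (u + v) ^ m := by
  have h := Real.Lp_add_le_of_nonneg (s := s) (p := (m : ℝ)) (by exact_mod_cast hm)
    (f := U) (g := V) hU hV
  simp only [Real.rpow_natCast] at h
  have hm0 : (m : ℝ) ≠ 0 := by positivity
  have h0 : 0 ≤ ∑ i ∈ s, U i ^ m := sum_nonneg fun i hi => pow_nonneg (hU i hi) m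
  have h0' : 0 ≤ ∑ i ∈ s, V i ^ m := sum_nonneg fun i hi => pow_nonneg (hV i hi) m
  have h0'' : 0 ≤ ∑ i ∈ s, (U i + V i) ^ m :=
    sum_nonneg fun i hi => pow_nonneg (add_nonneg (hU i hi) (hV i hi)) m
  have h1 : (∑ i ∈ s, U i ^ m) ^ (1 / (m : ℝ)) ≤ u := by
    calc _ ≤ (u ^ m) ^ (1 / (m : ℝ)) := Real.rpow_le_rpow h0 hUu (by positivity)
      _ = u := by rw [← Real.rpow_natCast, ← Real.rpow_mul hu, mul_one_div_cancel hm0,
          Real.rpow_one]
  have h2 : (∑ i ∈ s, V i ^ m) ^ (1 / (m : ℝ)) ≤ v := by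
    calc _ ≤ (v ^ m) ^ (1 / (m : ℝ)) := Real.rpow_le_rpow h0' hVv (by positivity)
      _ = v := by rw [← Real.rpow_natCast, ← Real.rpow_mul hv, mul_one_div_cancel hm0,
          Real.rpow_one]
  have h3 : (∑ i ∈ s, (U i + V i) ^ m) ^ (1 / (m : ℝ)) ≤ u + v := by linarith
  calc ∑ i ∈ s, (U i + V i) ^ m = ((∑ i ∈ s, (U i + V i) ^ m) ^ (1 / (m : ℝ))) ^ m := by
        rw [← Real.rpow_natCast, ← Real.rpow_mul h0'', one_div_mul_cancel hm0, Real.rpow_one]
    _ ≤ (u + v) ^ m := pow_le_pow_left₀ (Real.rpow_nonneg h0'' _) h3 m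

/-- The tensor power bound. -/
theorem trans_bound (ω : ℂ) (K : ℝ) (hK : 0 ≤ K) (r : ℕ) (hr : 1 ≤ r) (p : ℝ)
    (hp : p = 2 * r / (2 * r - 1))
    (hTP : ∀ u v : ℂ, ‖u + v‖ ^ (2 * r) + ‖u + ω * v‖ ^ (2 * r) ≤
      K * (‖u‖ ^ p + ‖v‖ ^ p) ^ (2 * r - 1)) (S : Finset α) :
    ∀ f : Finset α → ℂ, ∑ B ∈ S.powerset, ‖trans ω S f B‖ ^ (2 * r) ≤
      K ^ S.card * (∑ A ∈ S.powerset, ‖f A‖ ^ p) ^ (2 * r - 1) := by
  have hr1 : (1 : ℝ) ≤ r := by exact_mod_cast hr
  have hpow : ∀ z : ℝ, 0 ≤ z → (z ^ p) ^ (2 * r - 1) = z ^ (2 * r) := by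
    intro z hz
    rw [← Real.rpow_natCast, ← Real.rpow_mul hz, ← Real.rpow_natCast z]
    congr 1
    have : ((2 * r - 1 : ℕ) : ℝ) = 2 * r - 1 := by
      rw [Nat.cast_sub (by omega)]; push_cast; ring
    rw [this, hp]
    push_cast
    have h1 : (2 * r - 1 : ℝ) ≠ 0 := by linarith
    field_simp
  induction S using Finset.induction_on with
  | empty =>
    intro f
    simp [trans]
    rw [hpow _ (norm_nonneg _)]
  | insert a S ha ih =>
    intro f
    set f1 : Finset α → ℂ := fun A => f (insert a A) with hf1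
    rw [sum_powerset_insert ha, sum_powerset_insert ha (fun A => ‖f A‖ ^ p), card_insert_of_notMem ha,
      ← sum_add_distrib]
    set P := ∑ A ∈ S.powerset, ‖f A‖ ^ p with hP
    set Q := ∑ A ∈ S.powerset, ‖f (insert a A)‖ ^ p with hQ
    have hP0 : 0 ≤ P := sum_nonneg fun A _ => Real.rpow_nonneg (norm_nonneg _) _
    have hQ0 : 0 ≤ Q := sum_nonneg fun A _ => Real.rpow_nonneg (norm_nonneg _) _
    set m : ℕ := 2 * r - 1 with hm
    have hm1 : 1 ≤ m := by omega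
    have hm0 : (m : ℝ) ≠ 0 := by positivity
    -- the scale
    set κ : ℝ := (K ^ S.card) ^ (1 / (m : ℝ)) with hκ
    have hKS : 0 ≤ K ^ S.card := pow_nonneg hK _
    have hκ0 : 0 ≤ κ := Real.rpow_nonneg hKS _
    have hκm : κ ^ m = K ^ S.card := by
      rw [hκ, ← Real.rpow_natCast, ← Real.rpow_mul hKS, one_div_mul_cancel hm0, Real.rpow_one]
    have h1 : ∑ B ∈ S.powerset, (‖trans ω S f B‖ ^ p) ^ m ≤ (κ * P) ^ m := by
      rw [mul_pow, hκm]
      simp only [hpow _ (norm_nonneg _)]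
      exact ih f
    have h2 : ∑ B ∈ S.powerset, (‖trans ω S f1 B‖ ^ p) ^ m ≤ (κ * Q) ^ m := by
      rw [mul_pow, hκm]
      simp only [hpow _ (norm_nonneg _)]
      exact ih f1
    have h3 := minkowski S.powerset (fun B => ‖trans ω S f B‖ ^ p)
      (fun B => ‖trans ω S f1 B‖ ^ p) (fun _ _ => Real.rpow_nonneg (norm_nonneg _) _)
      (fun _ _ => Real.rpow_nonneg (norm_nonneg _) _) m hm1 (κ * P) (κ * Q)
      (by positivity) (by positivity) h1 h2
    calc ∑ B ∈ S.powerset, (‖trans ω (insert a S) f B‖ ^ (2 * r) +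
          ‖trans ω (insert a S) f (insert a B)‖ ^ (2 * r))
        ≤ ∑ B ∈ S.powerset, K * (‖trans ω S f B‖ ^ p + ‖trans ω S f1 B‖ ^ p) ^ m := by
          apply sum_le_sum
          intro B hB
          have hB' := mem_powerset.1 hB
          rw [trans_insert_left ω ha f hB', trans_insert_right ω ha f hB']
          exact hTP _ _
      _ = K * ∑ B ∈ S.powerset, (‖trans ω S f B‖ ^ p + ‖trans ω S f1 B‖ ^ p) ^ m := by
          rw [mul_sum]
      _ ≤ K * (κ * P + κ * Q) ^ m := mul_le_mul_of_nonneg_left h3 hK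
      _ = K ^ (S.card + 1) * (P + Q) ^ m := by
          rw [← mul_add, mul_pow, hκm, pow_succ]; ring

/-- The bilinear bound for two families of subsets of `S`. -/
theorem bilinear_bound (ω : ℂ) (K : ℝ) (hK : 0 ≤ K) (r : ℕ) (hr : 1 ≤ r) (p : ℝ)
    (hp : p = 2 * r / (2 * r - 1))
    (hTP : ∀ u v : ℂ, ‖u + v‖ ^ (2 * r) + ‖u + ω * v‖ ^ (2 * r) ≤
      K * (‖u‖ ^ p + ‖v‖ ^ p) ^ (2 * r - 1)) (S : Finset α) (X : Finset (Finset α))
    (hX : X ⊆ S.powerset) :
    ‖∑ B ∈ X, ∑ A ∈ X, ω ^ (A ∩ B).card‖ ^ (2 * r) ≤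
      K ^ S.card * ((X.card : ℝ) ^ 2) ^ (2 * r - 1) := by
  have hr1 : (1 : ℝ) ≤ r := by exact_mod_cast hr
  have hp0 : 0 < p := by rw [hp]; apply div_pos <;> linarith
  set f : Finset α → ℂ := fun A => if A ∈ X then 1 else 0 with hf
  have h1 : ∀ B, trans ω S f B = ∑ A ∈ X, ω ^ (A ∩ B).card := by
    intro B
    unfold trans
    rw [← sum_subset hX]
    · apply sum_congr rfl
      intro A hA
      simp [hf, hA]
    · intro A _ hA
      simp [hf, hA]
  have h2 : ∑ A ∈ S.powerset, ‖f A‖ ^ p = X.card := by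
    rw [← sum_subset hX]
    · rw [card_eq_sum_ones]
      push_cast
      apply sum_congr rfl
      intro A hA
      simp [hf, hA]
    · intro A _ hA
      simp [hf, hA, Real.zero_rpow hp0.ne']
  have h3 := trans_bound ω K hK r hr p hp hTP S f
  rw [h2] at h3
  have h4 : ∑ B ∈ X, ‖∑ A ∈ X, ω ^ (A ∩ B).card‖ ^ (2 * r) ≤
      K ^ S.card * (X.card : ℝ) ^ (2 * r - 1) := by
    refine le_trans ?_ h3
    simp only [← h1]
    exact sum_le_sum_of_subset_of_nonneg hX fun _ _ _ => by positivity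
  have h5 := pow_sum_div_card_le_sum_pow (s := X) (f := fun B => ‖∑ A ∈ X, ω ^ (A ∩ B).card‖)
    (n := 2 * r - 1) (fun _ _ => norm_nonneg _)
  have e1 : 2 * r - 1 + 1 = 2 * r := by omega
  rw [e1] at h5
  rcases X.eq_empty_or_nonempty with h0 | h0
  · rw [h0]
    simp only [sum_empty, norm_zero, card_empty]
    rw [zero_pow (by omega)]
    positivity
  · have hc : 0 < (X.card : ℝ) := by exact_mod_cast h0.card_pos
    rw [div_le_iff₀ (by positivity)] at h5
    calc ‖∑ B ∈ X, ∑ A ∈ X, ω ^ (A ∩ B).card‖ ^ (2 * r)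
        ≤ (∑ B ∈ X, ‖∑ A ∈ X, ω ^ (A ∩ B).card‖) ^ (2 * r) :=
          pow_le_pow_left₀ (norm_nonneg _) (norm_sum_le _ _) _
      _ ≤ (∑ B ∈ X, ‖∑ A ∈ X, ω ^ (A ∩ B).card‖ ^ (2 * r)) * (X.card : ℝ) ^ (2 * r - 1) := h5
      _ ≤ (K ^ S.card * (X.card : ℝ) ^ (2 * r - 1)) * (X.card : ℝ) ^ (2 * r - 1) := by
          gcongr
      _ = _ := by rw [sq, mul_pow]; ring

end Pool.Agent.Helper96.WS
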