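import Mathlib

/-!
# A two point inequality with imaginary parameter

Even exponent version (with a non sharp constant) of the two point inequality of Beckner.
-/

set_option autoImplicit false

namespace Pool.Agent.Helper96.WS

/-- The auxiliary bounds: `E` and `O` are the even and odd parts of `(A+B)^m`. -/
theorem even_odd_aux (A B X : ℝ) (hA : 0 ≤ A) (hB : |B| ≤ A) (hX : 0 ≤ X)
    (hBX : B ^ 2 ≤ 4 * A * X) (m : ℕ) :
    0 ≤ (A + B) ^ m + (A - B) ^ m ∧ 0 ≤ B * ((A + B) ^ m - (A - B) ^ m) ∧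
      B * ((A + B) ^ m - (A - B) ^ m) ≤ 4 * m * X * ((A + B) ^ m + (A - B) ^ m) := by
  have h1 : 0 ≤ A + B := by linarith [neg_abs_le B]
  have h2 : 0 ≤ A - B := by linarith [le_abs_self B]
  have hE : ∀ m : ℕ, 0 ≤ (A + B) ^ m + (A - B) ^ m := fun m => by positivity
  have hO : ∀ m : ℕ, 0 ≤ B * ((A + B) ^ m - (A - B) ^ m) := by
    intro m
    rcases le_total 0 B with h | h
    · have : (A - B) ^ m ≤ (A + B) ^ m := pow_le_pow_left₀ h2 (by linarith) m
      exact mul_nonneg h (by linarith)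
    · have : (A + B) ^ m ≤ (A - B) ^ m := pow_le_pow_left₀ h1 (by linarith) m
      exact mul_nonneg_of_nonpos_of_nonpos h (by linarith)
  refine ⟨hE m, hO m, ?_⟩
  have key : ∀ m : ℕ, A * (B * ((A + B) ^ m - (A - B) ^ m)) ≤
      m * B ^ 2 * ((A + B) ^ m + (A - B) ^ m) := by
    intro m
    induction m with
    | zero => simp
    | succ m ih =>
      have e1 : (A + B) ^ (m + 1) - (A - B) ^ (m + 1) =
          A * ((A + B) ^ m - (A - B) ^ m) + B * ((A + B) ^ m + (A - B) ^ m) := by ring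
      have e2 : (A + B) ^ (m + 1) + (A - B) ^ (m + 1) =
          A * ((A + B) ^ m + (A - B) ^ m) + B * ((A + B) ^ m - (A - B) ^ m) := by ring
      rw [e1, e2]
      push_cast
      have h3 := hE m
      have h4 := hO m
      set E := (A + B) ^ m + (A - B) ^ m
      set O := (A + B) ^ m - (A - B) ^ m
      have h5 : A * (A * (B * O)) ≤ A * (m * B ^ 2 * E) := mul_le_mul_of_nonneg_left ih hA
      have h6 : 0 ≤ ((m : ℝ) + 1) * B ^ 2 * (B * O) := by positivity
      nlinarith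
  rcases hA.eq_or_lt with h0 | h0
  · have : B = 0 := by
      have : |B| ≤ 0 := by linarith
      exact abs_eq_zero.1 (le_antisymm this (abs_nonneg B))
    have h3 := hE m
    rw [this] at h3 ⊢
    rw [zero_mul]
    positivity
  · have h3 := key m
    have h4 : (m : ℝ) * B ^ 2 * ((A + B) ^ m + (A - B) ^ m) ≤
        m * (4 * A * X) * ((A + B) ^ m + (A - B) ^ m) := by
      have := hE m
      gcongr
    have h5 : A * (B * ((A + B) ^ m - (A - B) ^ m)) ≤
        A * (4 * m * X * ((A + B) ^ m + (A - B) ^ m)) := by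
      calc _ ≤ _ := h3
        _ ≤ _ := h4
        _ = _ := by ring
    exact le_of_mul_le_mul_left h5 h0

theorem even_le (A B X : ℝ) (hA : 0 ≤ A) (hB : |B| ≤ A) (hX : 0 ≤ X)
    (hBX : B ^ 2 ≤ 4 * A * X) (r m : ℕ) (hm : m ≤ r) :
    (A + B) ^ m + (A - B) ^ m ≤ 2 * (A + 4 * ((r : ℝ) - 1) * X) ^ m := by
  induction m with
  | zero => norm_num
  | succ m ih =>
    have ih' := ih (by omega)
    obtain ⟨h1, h2, h3⟩ := even_odd_aux A B X hA hB hX hBX m
    have e2 : (A + B) ^ (m + 1) + (A - B) ^ (m + 1) =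
          A * ((A + B) ^ m + (A - B) ^ m) + B * ((A + B) ^ m - (A - B) ^ m) := by ring
    have h4 : (m : ℝ) ≤ (r : ℝ) - 1 := by
      have : ((m + 1 : ℕ) : ℝ) ≤ r := by exact_mod_cast hm
      push_cast at this
      linarith
    have hr' : (0 : ℝ) ≤ (r : ℝ) - 1 := by linarith [(Nat.cast_nonneg m : (0 : ℝ) ≤ m)]
    calc (A + B) ^ (m + 1) + (A - B) ^ (m + 1)
        = A * ((A + B) ^ m + (A - B) ^ m) + B * ((A + B) ^ m - (A - B) ^ m) := e2
      _ ≤ A * ((A + B) ^ m + (A - B) ^ m) + 4 * m * X * ((A + B) ^ m + (A - B) ^ m) := by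
          linarith
      _ = (A + 4 * m * X) * ((A + B) ^ m + (A - B) ^ m) := by ring
      _ ≤ (A + 4 * ((r : ℝ) - 1) * X) * ((A + B) ^ m + (A - B) ^ m) := by gcongr
      _ ≤ (A + 4 * ((r : ℝ) - 1) * X) * (2 * (A + 4 * ((r : ℝ) - 1) * X) ^ m) := by gcongr
      _ = 2 * (A + 4 * ((r : ℝ) - 1) * X) ^ (m + 1) := by ring

/-- Real form of the upper two point inequality. -/
theorem upper (a x y : ℝ) (r : ℕ) :
    ((a + x) ^ 2 + y ^ 2) ^ r + ((a - x) ^ 2 + y ^ 2) ^ r ≤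
      2 * (a ^ 2 + (4 * r - 3) * x ^ 2 + y ^ 2) ^ r := by
  have h := even_le (a ^ 2 + x ^ 2 + y ^ 2) (2 * a * x) (x ^ 2) (by positivity)
    (by
      rw [abs_le]
      constructor <;> nlinarith [sq_nonneg (a + x), sq_nonneg (a - x), sq_nonneg y])
    (sq_nonneg x) (by nlinarith [sq_nonneg (x ^ 2), sq_nonneg (x * y)]) r r le_rfl
  have e1 : a ^ 2 + x ^ 2 + y ^ 2 + 2 * a * x = (a + x) ^ 2 + y ^ 2 := by ring
  have e2 : a ^ 2 + x ^ 2 + y ^ 2 - 2 * a * x = (a - x) ^ 2 + y ^ 2 := by ring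
  have e3 : a ^ 2 + x ^ 2 + y ^ 2 + 4 * ((r : ℝ) - 1) * x ^ 2 =
      a ^ 2 + (4 * r - 3) * x ^ 2 + y ^ 2 := by ring
  rw [e1, e2, e3] at h
  exact h

/-- Real form of the lower two point inequality, by duality. -/
theorem lower (a x y : ℝ) (r : ℕ) (hr : 1 ≤ r) (p : ℝ) (hp : p = 2 * r / (2 * r - 1)) :
    2 ^ (2 * r - 1) * (a ^ 2 + x ^ 2 / (4 * r - 3) + y ^ 2) ^ r ≤
      (Real.sqrt ((a + x) ^ 2 + y ^ 2) ^ p + Real.sqrt ((a - x) ^ 2 + y ^ 2) ^ p) ^
        (2 * r - 1) := by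
  have hr1 : (1 : ℝ) ≤ r := by exact_mod_cast hr
  have hc : (0 : ℝ) < 4 * r - 3 := by linarith
  set c : ℝ := 4 * r - 3 with hcdef
  set N : ℝ := a ^ 2 + x ^ 2 / c + y ^ 2 with hN
  have hN0 : 0 ≤ N := by positivity
  set U := Real.sqrt ((a + x) ^ 2 + y ^ 2) with hU
  set V := Real.sqrt ((a - x) ^ 2 + y ^ 2) with hV
  set U' := Real.sqrt ((a + x / c) ^ 2 + y ^ 2) with hU'
  set V' := Real.sqrt ((a - x / c) ^ 2 + y ^ 2) with hV'
  have hU0 : 0 ≤ U := Real.sqrt_nonneg _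
  have hV0 : 0 ≤ V := Real.sqrt_nonneg _
  have hU'0 : 0 ≤ U' := Real.sqrt_nonneg _
  have hV'0 : 0 ≤ V' := Real.sqrt_nonneg _
  -- pairing
  have h1 : (a + x) * (a + x / c) + y * y ≤ U * U' := by
    rw [hU, hU', ← Real.sqrt_mul (by positivity)]
    apply Real.le_sqrt_of_sq_le
    nlinarith [sq_nonneg ((a + x) * y - (a + x / c) * y)]
  have h2 : (a - x) * (a - x / c) + y * y ≤ V * V' := by
    rw [hV, hV', ← Real.sqrt_mul (by positivity)]
    apply Real.le_sqrt_of_sq_le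
    nlinarith [sq_nonneg ((a - x) * y - (a - x / c) * y)]
  have h3 : 2 * N ≤ U * U' + V * V' := by
    have : (a + x) * (a + x / c) + y * y + ((a - x) * (a - x / c) + y * y) = 2 * N := by
      rw [hN]; ring
    linarith
  -- Hölder
  have hpq : p.HolderConjugate (2 * r) := by
    rw [Real.holderConjugate_iff]
    constructor
    · rw [hp, lt_div_iff₀ (by linarith)]; linarith
    · rw [hp]; field_simp; ring
  have h4 : U * U' + V * V' ≤ (U ^ p + V ^ p) ^ (1 / p) *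
      (U' ^ (2 * r : ℝ) + V' ^ (2 * r : ℝ)) ^ (1 / (2 * r : ℝ)) := by
    have := Real.inner_le_Lp_mul_Lq_of_nonneg (Finset.univ : Finset (Fin 2))
      (f := ![U, V]) (g := ![U', V']) hpq (by intro i _; fin_cases i <;> simp [hU0, hV0])
      (by intro i _; fin_cases i <;> simp [hU'0, hV'0])
    simpa using this
  have h5 : U' ^ (2 * r : ℝ) + V' ^ (2 * r : ℝ) ≤ 2 * N ^ r := by
    have e1 : ∀ z : ℝ, 0 ≤ z → Real.sqrt z ^ (2 * r : ℝ) = z ^ r := by
      intro z hz
      have : (2 * r : ℝ) = ((2 * r : ℕ) : ℝ) := by push_cast; ring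
      rw [this, Real.rpow_natCast, pow_mul, Real.sq_sqrt hz]
    rw [hU', hV', e1 _ (by positivity), e1 _ (by positivity)]
    have := upper a (x / c) y r
    have e2 : a ^ 2 + (4 * r - 3) * (x / c) ^ 2 + y ^ 2 = N := by
      rw [hN, ← hcdef]; field_simp
    rw [e2] at this
    exact this
  have hP0 : 0 ≤ U ^ p + V ^ p := by positivity
  have h6 : 2 * N ≤ (U ^ p + V ^ p) ^ (1 / p) * (2 * N ^ r) ^ (1 / (2 * r : ℝ)) := by
    refine h3.trans (h4.trans ?_)
    gcongr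
  have h7 : (2 * N) ^ (2 * r) ≤ (U ^ p + V ^ p) ^ (2 * r - 1) * (2 * N ^ r) := by
    have h8 := pow_le_pow_left₀ (by positivity) h6 (2 * r)
    rw [mul_pow ((U ^ p + V ^ p) ^ (1 / p))] at h8
    have e3 : ((U ^ p + V ^ p) ^ (1 / p)) ^ (2 * r) = (U ^ p + V ^ p) ^ (2 * r - 1) := by
      rw [← Real.rpow_natCast, ← Real.rpow_mul hP0, ← Real.rpow_natCast]
      congr 1
      have : ((2 * r - 1 : ℕ) : ℝ) = 2 * r - 1 := by
        rw [Nat.cast_sub (by omega)]; push_cast; ring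
      rw [this, hp]
      push_cast
      field_simp
    have e4 : ((2 * N ^ r) ^ (1 / (2 * r : ℝ))) ^ (2 * r) = 2 * N ^ r := by
      rw [← Real.rpow_natCast, ← Real.rpow_mul (by positivity)]
      push_cast
      rw [one_div_mul_cancel (by positivity), Real.rpow_one]
    rw [e3, e4] at h8
    exact h8
  rcases hN0.eq_or_lt with h0 | h0
  · rw [← h0, zero_pow (by omega), mul_zero]
    positivity
  · have h9 : 0 < 2 * N ^ r := by positivity
    have e5 : (2 * N) ^ (2 * r) = (2 ^ (2 * r - 1) * N ^ r) * (2 * N ^ r) := by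
      have : 2 * r = (2 * r - 1) + 1 := by omega
      rw [mul_pow]
      nth_rewrite 1 [this]
      rw [pow_succ, two_mul r, pow_add]
      ring
    rw [e5] at h7
    exact le_of_mul_le_mul_right h7 h9

end Pool.Agent.Helper96.WS
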